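import Pool.Agent.TH373.EP.Re
import Pool.Agent.TH373.EP.PolyJ

/-!
# The elliptic Schanuel conjecture at almost all real points `α_j q_j`, up to any given degree and height, with a measure

`L` is a pair of periods (independent over `ℝ`), `L.lattice = ℤ ω₁ + ℤ ω₂ = Ω` and `℘[L]` is Mathlib's Weierstrass
function. We consider lattices which are stable under complex conjugation (elliptic curves over `ℝ`), fixed nonzero real
numbers `α_1, …, α_n` and the points `p_j = α_j q_j` with rational `q_j`.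

The conjecture predicts that `ℚ(g₂, g₃, p_j, ℘(p_j), ζ(p_j))` has transcendence degree at least `2n` if the `p_j` are
linearly independent over `ℚ ⊗ End(ℂ/Ω)`.
-/

set_option autoImplicit false

open scoped PeriodPair ComplexConjugate

namespace Pool.Agent.Results.MP_2ad15a_nt.AlmostAllRealPoints

/-- The Weierstrass zeta function `ζ(z) = ∑ (1/(z-l) + 1/l + z/l²)`, the sum over the lattice (the
summand of `l = 0` is `1/z`, since `1/0 = 0` in Lean). -/
noncomputable def ζ (L : PeriodPair) (z : ℂ) : ℂ :=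
  ∑' l : L.lattice, (1 / (z - l) + 1 / l + z / l ^ 2)

/-- The `2 n + 1` numbers `π`, `℘(α_j q_j)`, `ζ(α_j q_j)`. -/
noncomputable def values (L : PeriodPair) {n : ℕ} (α : Fin n → ℝ) (q : Fin n → ℚ) (x : Option (Fin n × Fin 2)) : ℂ :=
  match x with
  | none => (Real.pi : ℂ)
  | some (j, i) => if i = 0 then ℘[L] ((α j * q j : ℝ) : ℂ) else ζ L ((α j * q j : ℝ) : ℂ)

/-- The `n`-tuples `q` of rational numbers `q_j` in `[a_j, b_j]` with denominators at most `T` for which some nonzero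
polynomial in `2 n + 1` variables with integer coefficients of absolute value at most `T ^ A`, of degree at most `d` in
each variable, takes at `π`, `℘(α_j q_j)`, `ζ(α_j q_j)` a value of absolute value at most `T ^ (-B)`. -/
def Exceptional (L : PeriodPair) {n : ℕ} (d : ℕ) (α a b : Fin n → ℝ) (A B T : ℝ) : Set (Fin n → ℚ) :=
  {q | (∀ j, a j ≤ q j ∧ q j ≤ b j ∧ ((q j).den : ℝ) ≤ T) ∧
    ∃ P : MvPolynomial (Option (Fin n × Fin 2)) ℤ, P ≠ 0 ∧ (∀ x, P.degreeOf x ≤ d) ∧
      (∀ s, |((P.coeff s : ℤ) : ℝ)| ≤ T ^ A) ∧ ‖MvPolynomial.aeval (values L α q) P‖ ≤ T ^ (-B)}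

/-- Let `Ω` be a lattice stable under complex conjugation, `α_1, …, α_n` nonzero real numbers (`n ≥ 1`), `a_j < b_j` such
that `α_j t ∉ Ω` for `t ∈ [a_j, b_j]`, let `d`, `A ≥ 0` be given, and let `β > 2 - 2 / ((d + 1)^(2n + 1) + 1)`. There
are `B` and `C` such that for all `T ≥ 1` the number of exceptional `n`-tuples is at most `C T^(2(n - 1) + β)`. -/
theorem result (L : PeriodPair) (hL : ∀ w ∈ L.lattice, conj w ∈ L.lattice) (n d : ℕ) (hn : 1 ≤ n)
    (α a b : Fin n → ℝ) (hα : ∀ j, α j ≠ 0) (hab : ∀ j, a j < b j)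
    (hav : ∀ j, ∀ t : ℝ, a j ≤ t → t ≤ b j → ((α j * t : ℝ) : ℂ) ∉ L.lattice) (A β : ℝ) (hA : 0 ≤ A)
    (hβ : 2 - 2 / (((d : ℝ) + 1) ^ (2 * n + 1) + 1) < β) :
    ∃ B C : ℝ, ∀ T : ℝ, 1 ≤ T → (Exceptional L d α a b A B T).Finite ∧
      ((Exceptional L d α a b A B T).ncard : ℝ) ≤ C * T ^ (2 * ((n : ℝ) - 1) + β) := by
  refine TH373.EP.polysJ (fun j => TH373.EP.f2 L (α j)) a b hab ?_
    (fun j => TH373.EP.rindep L hL d (hα j) (hab j) (fun t ht => hav j t ht.1 ht.2)) hn
    (values L α) (fun _ => rfl) ?_ A β hA hβ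
  · intro j i t ht
    unfold TH373.EP.f2
    split_ifs
    · exact TH373.EP.fP_an L (hav j t ht.1 ht.2)
    · exact TH373.EP.fZ_an L (hav j t ht.1 ht.2)
  · intro q hq j i
    simp only [values, TH373.EP.f2]
    split_ifs
    · exact (TH373.EP.fP_coe L hL (α j) (q j)).symm
    · exact (TH373.EP.fZ_coe L hL (α j) (q j)).symm

end Pool.Agent.Results.MP_2ad15a_nt.AlmostAllRealPoints
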