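import Pool.Agent.TH818.AP.Mv3
import Pool.Agent.TH818.AP.Wp2

/-!
# Elliptic logarithms of almost all rational points, up to any given degree and height, with a measure
-/

set_option autoImplicit false

open scoped PeriodPair

namespace Pool.Agent.Results.MP_2ad15a_nt.EllipticLogarithms

/-- The Weierstrass zeta function `ζ(z) = ∑ (1/(z-l) + 1/l + z/l²)`, the sum over the lattice (the summand of `l = 0` is
`1/z`, since `1/0 = 0` in Lean). -/
noncomputable def zeta (L : PeriodPair) (z : ℂ) : ℂ := ∑' l : L.lattice, (1 / (z - l) + 1 / l + z / l ^ 2)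

/-- The `2n + 1` numbers `π`, `p_j(q_j)`, `ζ_j(p_j(q_j))`. -/
noncomputable def numbers {n : ℕ} (L : Fin n → PeriodPair) (p : Fin n → ℝ → ℝ) (q : Fin n → ℚ)
    (x : Option (Fin n × Fin 2)) : ℂ :=
  match x with
  | none => Real.pi
  | some (j, 0) => p j (q j)
  | some (j, 1) => zeta (L j) (p j (q j))

/-- The `n`-tuples `q` of rational numbers `q_j` in `[a_j, b_j]` with denominators at most `T` for which some nonzero
polynomial in `2n + 1` variables with integer coefficients of absolute value at most `T ^ A`, of degree at most `d` in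
each variable, takes at the numbers above a value of absolute value at most `T ^ (-B)`. -/
def Exceptional {n : ℕ} (L : Fin n → PeriodPair) (p : Fin n → ℝ → ℝ) (d : ℕ) (a b : Fin n → ℝ) (A B T : ℝ) :
    Set (Fin n → ℚ) :=
  {q | (∀ j, a j ≤ q j ∧ q j ≤ b j ∧ ((q j).den : ℝ) ≤ T) ∧
    ∃ P : MvPolynomial (Option (Fin n × Fin 2)) ℤ, P ≠ 0 ∧ (∀ x, P.degreeOf x ≤ d) ∧
      (∀ s, |((P.coeff s : ℤ) : ℝ)| ≤ T ^ A) ∧ ‖MvPolynomial.aeval (numbers L p q) P‖ ≤ T ^ (-B)}

/-- Let `L_1, …, L_n` (`n ≥ 1`) be lattices stable under complex conjugation, `p_j` real analytic at every point of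
`[a_j, b_j]` with values outside `L_j` and `℘_j(p_j(t)) = t`. Let `d`, `A ≥ 0` and `β > 2 - 2 / ((d + 1)^(2n + 1) + 1)`.
There are `B` and `C` such that for all `T ≥ 1` the number of exceptional `n`-tuples is at most `C T^(2(n - 1) + β)`. -/
theorem result (n d : ℕ) (hn : 1 ≤ n) (L : Fin n → PeriodPair)
    (hL : ∀ j, ∀ l ∈ (L j).lattice, (starRingEnd ℂ) l ∈ (L j).lattice) (a b : Fin n → ℝ) (hab : ∀ j, a j < b j)
    (p : Fin n → ℝ → ℝ) (hp : ∀ j, AnalyticOnNhd ℝ (p j) (Set.Icc (a j) (b j)))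
    (hpL : ∀ j, ∀ t ∈ Set.Icc (a j) (b j), (p j t : ℂ) ∉ (L j).lattice)
    (hpt : ∀ j, ∀ t ∈ Set.Icc (a j) (b j), ℘[L j] (p j t) = t) (A β : ℝ) (hA : 0 ≤ A)
    (hβ : 2 - 2 / (((d : ℝ) + 1) ^ (2 * n + 1) + 1) < β) :
    ∃ B C : ℝ, ∀ T : ℝ, 1 ≤ T → (Exceptional L p d a b A B T).Finite ∧
      ((Exceptional L p d a b A B T).ncard : ℝ) ≤ C * T ^ (2 * ((n : ℝ) - 1) + β) := by
  obtain ⟨B, C, h⟩ := TH818.AP.polysF (s := 2) (d := d)
    (fun j => ![p j, fun t => (H667R3.zeta (L j) (p j t)).re]) a b hab (by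
      intro j i
      fin_cases i
      · exact hp j
      · exact TH818.AP.an_zeta (hp j) (hpL j))
    (fun j => TH818.AP.wp_indep2 d (hL j) (hab j) (hp j) (hpL j) (hpt j)) hn A β hA hβ
  refine ⟨B, C, fun T hT => ?_⟩
  have heq : ∀ (q : Fin n → ℚ) (P : MvPolynomial (Option (Fin n × Fin 2)) ℤ),
      ‖MvPolynomial.aeval (numbers L p q) P‖ =
      |MvPolynomial.aeval (fun x : Option (Fin n × Fin 2) => x.elim Real.pi fun y =>
        (![p y.1, fun t => (H667R3.zeta (L y.1) (p y.1 t)).re] y.2) (q y.1 : ℝ)) P| := by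
    intro q P
    have h1 : numbers L p q = (algebraMap ℝ ℂ) ∘ (fun x : Option (Fin n × Fin 2) => x.elim Real.pi fun y =>
        (![p y.1, fun t => (H667R3.zeta (L y.1) (p y.1 t)).re] y.2) (q y.1 : ℝ)) := by
      funext x
      match x with
      | none => rfl
      | some (j, 0) => rfl
      | some (j, 1) => exact (TH818.AP.zeta_real (hL j) (p j (q j))).symm
    rw [h1, MvPolynomial.aeval_algebraMap_apply, Complex.coe_algebraMap, Complex.norm_real, Real.norm_eq_abs]
  have hset : Exceptional L p d a b A B T =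
      {t : Fin n → ℚ | (∀ j, a j ≤ t j ∧ t j ≤ b j ∧ ((t j).den : ℝ) ≤ T) ∧
        ∃ P : MvPolynomial (Option (Fin n × Fin 2)) ℤ, P ≠ 0 ∧ (∀ x, P.degreeOf x ≤ d) ∧
          (∀ u, |((P.coeff u : ℤ) : ℝ)| ≤ T ^ A) ∧
          |MvPolynomial.aeval (fun x : Option (Fin n × Fin 2) => x.elim Real.pi fun y =>
            (![p y.1, fun t => (H667R3.zeta (L y.1) (p y.1 t)).re] y.2) (t y.1 : ℝ)) P| ≤ T ^ (-B)} := by
    unfold Exceptional
    simp only [heq]
  have := h T hT
  rw [← hset] at this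
  exact this

end Pool.Agent.Results.MP_2ad15a_nt.EllipticLogarithms
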