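import Mathlib
import Pool.Agent.TH813.EKPts

/-!
# The elliptic Schanuel conjecture: all failures, with a uniform bound

`L` is a pair of periods `ω₁, ω₂` (independent over `ℝ`), `L.lattice = ℤ ω₁ + ℤ ω₂ = Ω`, and
`℘[L]`, `L.g₂`, `L.g₃` are Mathlib's Weierstrass function and invariants.

The conjecture says that `trdeg ℚ(g₂, g₃, pᵢ, ℘(pᵢ), ζ(pᵢ)) ≥ 2 n` for all `p₁, …, pₙ` outside `Ω`
which are linearly independent over `k = ℚ ⊗ End(ℂ / Ω)`.

The theorem: for every `r` there is a number `N` such that for every lattice and for every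
`k`-subspace `V` of `ℂ` with `dim V ≤ r` all failures of the conjecture inside `V`, together with
their defects, are governed by at most `N` subspaces `W` of `V`.
-/

set_option autoImplicit false

open Module
open scoped PeriodPair

namespace Pool.Agent.Results.MP_2ad15a_nt.UniformFailures

/-- The Weierstrass zeta function `ζ(z) = ∑ (1/(z-l) + 1/l + z/l²)`, the sum over the lattice (the
summand of `l = 0` is `1/z`, since `1/0 = 0` in Lean). -/
noncomputable def ζ (L : PeriodPair) (z : ℂ) : ℂ :=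
  ∑' l : L.lattice, (1 / (z - l) + 1 / l + z / l ^ 2)

/-- the field `k = ℚ ⊗ End(ℂ / Ω)` as a subfield of `ℂ`; see `mem_k` -/
noncomputable abbrev k (L : PeriodPair) : IntermediateField ℚ ℂ := Pool.Agent.TH813.Ell.kL L

/-- `k` consists of the numbers `c` such that `n c` maps the lattice to itself for some `n > 0` -/
theorem mem_k {L : PeriodPair} {c : ℂ} :
    c ∈ k L ↔ ∃ n : ℕ, 0 < n ∧ ∀ w ∈ L.lattice, (n * c) * w ∈ L.lattice := Iff.rfl

/-- the transcendence degree over `ℚ` of the field generated by `S` -/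
noncomputable def trd (S : Set ℂ) : Cardinal := Algebra.trdeg ℚ (IntermediateField.adjoin ℚ S)

/-- the numbers `g₂, g₃`, all `x`, `ζ(x)` with `x` in `X` and all `℘(w)` with `w` in `W` (`ζ` and
`℘` are only taken outside the lattice) -/
def num (L : PeriodPair) (X W : Submodule (k L) ℂ) : Set ℂ :=
  {L.g₂, L.g₃} ∪ ((X : Set ℂ) ∪ (ζ L '' ((X : Set ℂ) \ (L.lattice : Set ℂ)) ∪
    ℘[L] '' ((W : Set ℂ) \ (L.lattice : Set ℂ))))

/-- `p₁, …, pₙ` are points outside the lattice, independent over `k`, with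
`trdeg ℚ(g₂, g₃, pᵢ, ℘(pᵢ), ζ(pᵢ)) ≤ 2 n - m`. -/
def Fails (L : PeriodPair) (m : ℕ) {n : ℕ} (p : Fin n → ℂ) : Prop :=
  (∀ i, p i ∉ L.lattice) ∧ LinearIndependent (k L) p ∧
    trd ({L.g₂, L.g₃} ∪ (Set.range p ∪ (℘[L] '' Set.range p ∪ ζ L '' Set.range p))) + m ≤
      ((2 * n : ℕ) : Cardinal)

section

open Pool.Agent.TH813.Ell Pool.Agent.TH813.Uni Pool.Agent.W669.Gel

variable {L : PeriodPair}

theorem trd_of_eq {E E' : IntermediateField ℚ ℂ} (h : E = E') :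
    Algebra.trdeg ℚ E = Algebra.trdeg ℚ E' := by
  subst h
  rfl

theorem NK_bot (X W : Submodule (kL L) ℂ) (_ : X ≤ W) (m : ℕ) :
    tr (NK L ⊥ ⊥ X W) ≤ m ↔ trd (num L X W) ≤ m := by
  have h1 : NK L ⊥ ⊥ X W ∪ {0, 1} = num L X W ∪ {0, 1} := by
    have e1 : ((⊥ : Submodule ℚ ℂ) : Set ℂ) ∪ Complex.exp '' ((⊥ : Submodule ℚ ℂ) : Set ℂ) =
        {0, 1} := by
      rw [Submodule.bot_coe, Set.image_singleton, Complex.exp_zero]
      rfl
    have e2 : NK L ⊥ ⊥ X W = {L.g₂, L.g₃} ∪ ({0, 1} ∪ ((X : Set ℂ) ∪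
        (ζ L '' ((X : Set ℂ) \ (L.lattice : Set ℂ)) ∪
          ℘[L] '' ((W : Set ℂ) \ (L.lattice : Set ℂ))))) := by
      rw [← e1]
      rfl
    rw [e2]
    unfold num
    ext x
    simp only [Set.mem_union]
    tauto
  have h2 : ∀ S : Set ℂ, IntermediateField.adjoin ℚ (S ∪ {0, 1}) =
      IntermediateField.adjoin ℚ S := by
    intro S
    apply le_antisymm
    · rw [IntermediateField.adjoin_le_iff]
      rintro x (hx | rfl | rfl)
      · exact IntermediateField.subset_adjoin ℚ S hx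
      · exact zero_mem _
      · exact one_mem _
    · exact IntermediateField.adjoin.mono ℚ _ _ Set.subset_union_left
  have h3 : tr (NK L ⊥ ⊥ X W) = trd (num L X W) :=
    trd_of_eq (((h2 (NK L ⊥ ⊥ X W)).symm.trans (by rw [h1])).trans (h2 (num L X W)))
  rw [h3]

theorem fails_iff (U : Submodule (kL L) ℂ) [FiniteDimensional (kL L) U] (m : ℕ) :
    (∃ (n : ℕ) (p : Fin n → ℂ), Fails L m p ∧ ∀ i, p i ∈ U) ↔
      ∃ X ≤ U, trd (num L X X) + m ≤ ((2 * finrank (kL L) X : ℕ) : Cardinal) := by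
  constructor
  · rintro ⟨n, p, ⟨hp, hli, hle⟩, hU⟩
    refine ⟨Submodule.span (kL L) (Set.range p), ?_, ?_⟩
    · rw [Submodule.span_le]
      rintro _ ⟨i, rfl⟩
      exact hU i
    · rw [finrank_span_eq_card hli, Fintype.card_fin]
      obtain ⟨t, ht⟩ := Cardinal.lt_aleph0.1
        (lt_of_le_of_lt (le_self_add.trans hle) Cardinal.natCast_lt_aleph0)
      rw [ht] at hle
      refine (add_le_add_left ((NK_bot _ _ le_rfl t).1 ?_) _).trans hle
      refine tr_points_ge (L := L) (s := 0) ({L.g₂, L.g₃} ∪ (Set.range p ∪ (℘[L] '' Set.range p ∪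
        ζ L '' Set.range p))) Fin.elim0 p hp (fun i => i.elim0)
        (fun i => ⟨Or.inr (Or.inl ⟨i, rfl⟩), Or.inr (Or.inr (Or.inl ⟨_, ⟨i, rfl⟩, rfl⟩)),
          Or.inr (Or.inr (Or.inr ⟨_, ⟨i, rfl⟩, rfl⟩))⟩) (Or.inl (Or.inl rfl))
        (Or.inl (Or.inr rfl)) (A₁ := ⊥) (A₂ := ⊥) ?_ ?_ bot_le le_sup_right ht.le
      · intro D _ a ha
        rw [(Submodule.mem_bot ℚ).1 ha]
        exact ⟨map_zero D, map_zero (dl D)⟩
      · intro D _ a ha
        rw [(Submodule.mem_bot _).1 ha]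
        exact ⟨map_zero D, om_zero D, et_zero D⟩
  · rintro ⟨X, hX, h⟩
    have : FiniteDimensional (kL L) X := Submodule.finiteDimensional_of_le hX
    obtain ⟨p, hli, hpX, hp⟩ := exists_basis_off X
    refine ⟨_, p, ⟨hp, hli, ?_⟩, fun i => hX (hpX i)⟩
    refine le_trans (add_le_add_left (tr_mono ?_) _) h
    rintro x (hx | ⟨i, rfl⟩ | ⟨_, ⟨i, rfl⟩, rfl⟩ | ⟨_, ⟨i, rfl⟩, rfl⟩)
    · exact Or.inl hx
    · exact Or.inr (Or.inl (hpX i))
    · exact Or.inr (Or.inr (Or.inr ⟨_, ⟨hpX i, hp i⟩, rfl⟩))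
    · exact Or.inr (Or.inr (Or.inl ⟨_, ⟨hpX i, hp i⟩, rfl⟩))

theorem dK_iff (X W : Submodule (kL L) ℂ) [FiniteDimensional (kL L) W] (h : X ≤ W) (m : ℕ) :
    dK L ⊥ ⊥ X W ≤ -m ↔ trd (num L X W) + m ≤ ((2 * finrank (kL L) X : ℕ) : Cardinal) := by
  obtain ⟨t, ht⟩ := Cardinal.lt_aleph0.1 (tr_NK_lt (L := L) ⊥ ⊥ h)
  have h1 : trd (num L X W) = t := by
    have h2 := (NK_bot X W h t).1 ht.le
    obtain ⟨t', ht'⟩ := Cardinal.lt_aleph0.1 (lt_of_le_of_lt h2 Cardinal.natCast_lt_aleph0)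
    rw [ht'] at h2 ⊢
    have h3 := (NK_bot X W h t').2 ht'.le
    rw [ht] at h3
    exact le_antisymm h2 h3
  unfold dK
  rw [ht, h1, Cardinal.toNat_natCast, finrank_bot]
  have h4 : ((t : Cardinal) + m ≤ ((2 * finrank (kL L) X : ℕ) : Cardinal)) ↔
      t + m ≤ 2 * finrank (kL L) X := by norm_cast
  rw [h4]
  omega

end

/-- **Main result.** -/
theorem result (r : ℕ) : ∃ N : ℕ, ∀ (L : PeriodPair) (V : Submodule (k L) ℂ),
    FiniteDimensional (k L) V → finrank (k L) V ≤ r →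
    ∃ T : Finset (Submodule (k L) ℂ), T.card ≤ N ∧
      (∀ W ∈ T, W ≤ V ∧ trd (num L W W) < ((2 * finrank (k L) W : ℕ) : Cardinal)) ∧
      ∀ U : Submodule (k L) ℂ, U ≤ V → ∀ m : ℕ, 0 < m →
        ((∃ (n : ℕ) (p : Fin n → ℂ), Fails L m p ∧ ∀ i, p i ∈ U) ↔
          ∃ W ∈ T, trd (num L (U ⊓ W) W) + m ≤
            ((2 * finrank (k L) (U ⊓ W : Submodule (k L) ℂ) : ℕ) : Cardinal)) := by
  classical
  obtain ⟨N, hN⟩ := Pool.Agent.TH813.Ell.relK r
  refine ⟨N, fun L V hfd hr => ?_⟩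
  obtain ⟨T, hT1, hT2, hT3⟩ := hN L ⊥ ⊥ ⊥ V inferInstance hfd (by
    rw [finrank_bot]; exact Nat.zero_le r) hr le_rfl bot_le
  have hd0 : 0 ≤ Pool.Agent.TH813.Ell.dK L ⊥ ⊥ ⊥ ⊥ := by
    unfold Pool.Agent.TH813.Ell.dK
    rw [finrank_bot, finrank_bot]
    omega
  refine ⟨(T.filter (fun W => Pool.Agent.TH813.Ell.dK L W.1 W.1 W.2 W.2 ≤ -1)).image Prod.snd,
    Finset.card_image_le.trans ((Finset.card_filter_le _ _).trans hT1), ?_, ?_⟩
  · intro W hW
    obtain ⟨W', hW', rfl⟩ := Finset.mem_image.1 hW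
    obtain ⟨hW1, hW2⟩ := Finset.mem_filter.1 hW'
    have h0 : W'.1 = ⊥ := le_bot_iff.1 (hT2 W' hW1).2.1
    have hWV := (hT2 W' hW1).2.2.2.1
    have : FiniteDimensional (k L) W'.2 := Submodule.finiteDimensional_of_le hWV
    rw [h0] at hW2
    refine ⟨hWV, ?_⟩
    have h1 := (dK_iff W'.2 W'.2 le_rfl 1).1 hW2
    obtain ⟨t, ht⟩ := Cardinal.lt_aleph0.1
      (lt_of_le_of_lt (le_self_add.trans h1) Cardinal.natCast_lt_aleph0)
    change trd (num L W'.2 W'.2) < ((2 * finrank (k L) W'.2 : ℕ) : Cardinal)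
    change trd (num L W'.2 W'.2) + (1 : ℕ) ≤ ((2 * finrank (k L) W'.2 : ℕ) : Cardinal) at h1
    rw [ht] at h1 ⊢
    have h2 : t + 1 ≤ 2 * finrank (k L) W'.2 := by exact_mod_cast h1
    exact_mod_cast h2
  · intro U hU m hm
    have hfdU : FiniteDimensional (k L) U := Submodule.finiteDimensional_of_le hU
    rw [fails_iff]
    have h3 := hT3 ⊥ U le_rfl le_rfl bot_le hU (-m) (by omega)
    constructor
    · rintro ⟨X, hX, h⟩
      have : FiniteDimensional (k L) X := Submodule.finiteDimensional_of_le hX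
      obtain ⟨W, hW, h4⟩ := h3.1 ⟨⊥, X, le_rfl, le_rfl, bot_le, hX, (dK_iff X X le_rfl m).2 h⟩
      have h0 : W.1 = ⊥ := le_bot_iff.1 (hT2 W hW).2.1
      have hWV := (hT2 W hW).2.2.2.1
      have : FiniteDimensional (k L) W.2 := Submodule.finiteDimensional_of_le hWV
      rw [h0, inf_bot_eq] at h4
      refine ⟨W.2, Finset.mem_image.2 ⟨W, Finset.mem_filter.2 ⟨hW, ?_⟩, rfl⟩,
        (dK_iff (U ⊓ W.2) W.2 inf_le_right m).1 h4⟩
      have h5 := Pool.Agent.TH813.Ell.dK_anti (L := L) (X₁ := ⊥) (X₁' := ⊥) (W₁ := ⊥)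
        (X₂ := U ⊓ W.2) (X₂' := W.2) (W₂ := W.2) le_rfl inf_le_right le_rfl
      rw [h0]
      omega
    · rintro ⟨W, hW, h⟩
      obtain ⟨W', hW', rfl⟩ := Finset.mem_image.1 hW
      obtain ⟨hW1, hW2⟩ := Finset.mem_filter.1 hW'
      have h0 : W'.1 = ⊥ := le_bot_iff.1 (hT2 W' hW1).2.1
      have hWV := (hT2 W' hW1).2.2.2.1
      have : FiniteDimensional (k L) W'.2 := Submodule.finiteDimensional_of_le hWV
      obtain ⟨X₁, X₂, -, hX₁, -, hX₂, h5⟩ := h3.2 ⟨W', hW1, by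
        rw [h0, inf_bot_eq]
        exact (dK_iff (U ⊓ W'.2) W'.2 inf_le_right m).2 h⟩
      rw [le_bot_iff.1 hX₁] at h5
      have : FiniteDimensional (k L) X₂ := Submodule.finiteDimensional_of_le hX₂
      exact ⟨X₂, hX₂, (dK_iff X₂ X₂ le_rfl m).1 h5⟩

end Pool.Agent.Results.MP_2ad15a_nt.UniformFailures
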